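import Mathlib

/-! The sorted list of eigenvalues of a real symmetric matrix: tools for the first two of them. -/

namespace Pool.Agent.X152.Sorted

open Matrix

variable {n : Type*} [Fintype n] [DecidableEq n] {A : Matrix n n ℝ}

/-- The `i`-th eigenvalue (counted from `0`, with multiplicity) of a real symmetric matrix in
nonincreasing order; `0` if `i` is at least the order of the matrix. -/
noncomputable def lam (hA : A.IsHermitian) (i : ℕ) : ℝ :=
  if h : i < Fintype.card n then hA.eigenvalues₀ ⟨i, h⟩ else 0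

theorem exists_index (hA : A.IsHermitian) {μ : ℝ} {x : n → ℝ} (hx : x ≠ 0) (h : A *ᵥ x = μ • x) :
    ∃ k, hA.eigenvalues₀ k = μ := by
  have hs : μ ∈ spectrum ℝ A := by
    have h1 : Module.End.HasEigenvalue (Matrix.toLin' A) μ := by
      refine Module.End.hasEigenvalue_of_hasEigenvector (x := x) ⟨?_, hx⟩
      rw [Module.End.mem_eigenspace_iff, Matrix.toLin'_apply, h]
    have h2 := h1.mem_spectrum
    rwa [Matrix.spectrum_toLin'] at h2
  rw [hA.spectrum_real_eq_range_eigenvalues] at hs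
  obtain ⟨i, hi⟩ := hs
  exact ⟨_, hi⟩

/-- An orthonormal family of eigenvectors indexed like the sorted eigenvalues. -/
theorem exists_vec (hA : A.IsHermitian) : ∃ u : Fin (Fintype.card n) → n → ℝ,
    (∀ k, A *ᵥ u k = hA.eigenvalues₀ k • u k) ∧ (∀ k, u k ⬝ᵥ u k = 1) ∧
      ∀ k l, k ≠ l → u k ⬝ᵥ u l = 0 := by
  let e := Fintype.equivOfCardEq (Fintype.card_fin (Fintype.card n))
  let e' : Fin (Fintype.card n) ≃ n := Fintype.equivOfCardEq (Fintype.card_fin _)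
  have hinner : ∀ k l, (⇑(hA.eigenvectorBasis k) : n → ℝ) ⬝ᵥ ⇑(hA.eigenvectorBasis l) =
      inner ℝ (hA.eigenvectorBasis k) (hA.eigenvectorBasis l) := by
    intro k l
    rw [EuclideanSpace.inner_eq_star_dotProduct, dotProduct_comm]
    simp
  refine ⟨fun k => ⇑(hA.eigenvectorBasis (e' k)), fun k => ?_, fun k => ?_, fun k l hkl => ?_⟩
  · have := hA.mulVec_eigenvectorBasis (e' k)
    rw [this]
    simp [IsHermitian.eigenvalues, e']
  · rw [hinner]
    have := orthonormal_iff_ite.1 hA.eigenvectorBasis.orthonormal (e' k) (e' k)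
    simpa using this
  · rw [hinner]
    have := orthonormal_iff_ite.1 hA.eigenvectorBasis.orthonormal (e' k) (e' l)
    simpa [hkl] using this

theorem le_lam_zero (hA : A.IsHermitian) {μ : ℝ} {x : n → ℝ} (hx : x ≠ 0) (h : A *ᵥ x = μ • x) :
    μ ≤ lam hA 0 := by
  obtain ⟨k, hk⟩ := exists_index hA hx h
  have hc : 0 < Fintype.card n := k.pos
  rw [lam, dif_pos hc, ← hk]
  exact hA.eigenvalues₀_antitone (Fin.mk_le_of_le_val (Nat.zero_le _))

theorem le_lam_one (hA : A.IsHermitian) {μ ν : ℝ} (hμν : μ < ν) {x y : n → ℝ} (hx : x ≠ 0)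
    (h : A *ᵥ x = μ • x) (hy : y ≠ 0) (h' : A *ᵥ y = ν • y) : μ ≤ lam hA 1 := by
  obtain ⟨k, hk⟩ := exists_index hA hx h
  obtain ⟨l, hl⟩ := exists_index hA hy h'
  have hkl : (k : ℕ) ≠ 0 := by
    intro h0
    have : hA.eigenvalues₀ l ≤ hA.eigenvalues₀ k :=
      hA.eigenvalues₀_antitone (by rw [Fin.le_def, h0]; exact Nat.zero_le _)
    rw [hk, hl] at this
    linarith
  have hc : 1 < Fintype.card n := lt_of_le_of_lt (by omega) k.isLt
  rw [lam, dif_pos hc, ← hk]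
  exact hA.eigenvalues₀_antitone (Fin.mk_le_of_le_val (by show 1 ≤ (k : ℕ); omega))

theorem lam_zero_le (hA : A.IsHermitian) [Nonempty n] {c : ℝ}
    (h : ∀ μ : ℝ, ∀ x : n → ℝ, x ≠ 0 → A *ᵥ x = μ • x → μ ≤ c) : lam hA 0 ≤ c := by
  obtain ⟨u, hu1, hu2, -⟩ := exists_vec hA
  have hc : 0 < Fintype.card n := Fintype.card_pos
  rw [lam, dif_pos hc]
  refine h _ (u ⟨0, hc⟩) ?_ (hu1 _)
  intro h0
  have := hu2 ⟨0, hc⟩
  rw [h0] at this
  simp at this

theorem lam_one_le (hA : A.IsHermitian) (hc : 1 < Fintype.card n) {c : ℝ} (v : n → ℝ)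
    (h : ∀ μ : ℝ, c < μ → ∀ x : n → ℝ, A *ᵥ x = μ • x → ∃ t : ℝ, x = t • v) : lam hA 1 ≤ c := by
  by_contra hcon
  push Not at hcon
  rw [lam, dif_pos hc] at hcon
  obtain ⟨u, hu1, hu2, hu3⟩ := exists_vec hA
  have h0 : 0 < Fintype.card n := by omega
  obtain ⟨s, hs⟩ := h _ hcon (u ⟨1, hc⟩) (hu1 _)
  have hcon0 : c < hA.eigenvalues₀ ⟨0, h0⟩ :=
    hcon.trans_le (hA.eigenvalues₀_antitone (Fin.mk_le_of_le_val (Nat.zero_le _)))
  obtain ⟨t, ht⟩ := h _ hcon0 (u ⟨0, h0⟩) (hu1 _)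
  have e1 := hu3 ⟨0, h0⟩ ⟨1, hc⟩ (by simp)
  have e2 := hu2 ⟨0, h0⟩
  have e3 := hu2 ⟨1, hc⟩
  rw [hs, ht, smul_dotProduct, dotProduct_smul, smul_eq_mul, smul_eq_mul] at e1
  rw [ht, smul_dotProduct, dotProduct_smul, smul_eq_mul, smul_eq_mul] at e2
  rw [hs, smul_dotProduct, dotProduct_smul, smul_eq_mul, smul_eq_mul] at e3
  have h4 : (t * (s * (v ⬝ᵥ v))) * (t * (s * (v ⬝ᵥ v))) = 1 := by
    calc (t * (s * (v ⬝ᵥ v))) * (t * (s * (v ⬝ᵥ v)))
        = (t * (t * (v ⬝ᵥ v))) * (s * (s * (v ⬝ᵥ v))) := by ring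
      _ = 1 := by rw [e2, e3, one_mul]
  rw [e1] at h4
  simp at h4

end Pool.Agent.X152.Sorted
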