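import Mathlib

set_option autoImplicit false

open Finset Equiv

namespace Pool.Agent.X152.CosetStab

/-- number of permutations with prescribed values on a set -/
theorem card_perm_prescribed {α : Type*} [Fintype α] [DecidableEq α] (S : Finset α) (f : α → α)
    (hf : Set.InjOn f S) :
    (Finset.univ.filter (fun σ : Perm α => ∀ a ∈ S, σ a = f a)).card
      = (Fintype.card α - S.card).factorial := by
  classical
  -- a permutation extending f
  obtain ⟨π, hπ⟩ : ∃ π : Perm α, ∀ a ∈ S, π a = f a := by
    let T := S.image f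
    have hcard : Fintype.card {x // x ∈ S} = Fintype.card {x // x ∈ T} := by
      rw [Fintype.card_coe, Fintype.card_coe, Finset.card_image_of_injOn hf]
    let g : {x // x ∈ S} → {x // x ∈ T} := fun x => ⟨f x, Finset.mem_image_of_mem f x.2⟩
    have hg : Function.Injective g := by
      intro x y hxy
      have : f x = f y := by simpa [g] using hxy
      exact Subtype.ext (hf x.2 y.2 this)
    have hgb : Function.Bijective g := (Fintype.bijective_iff_injective_and_card g).2 ⟨hg, hcard⟩
    let e : {x // x ∈ S} ≃ {x // x ∈ T} := Equiv.ofBijective g hgb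
    refine ⟨e.extendSubtype, fun a ha => ?_⟩
    rw [Equiv.extendSubtype_apply_of_mem e a ha]
    rfl
  have h1 : (Finset.univ.filter (fun σ : Perm α => ∀ a ∈ S, σ a = f a)).card
      = (Finset.univ.filter (fun σ : Perm α => ∀ a ∈ S, σ a = a)).card := by
    refine Finset.card_bij (fun σ _ => π⁻¹ * σ) ?_ ?_ ?_
    · intro σ hσ
      simp only [Finset.mem_filter, Finset.mem_univ, true_and] at hσ ⊢
      intro a ha
      rw [Perm.mul_apply, hσ a ha, ← hπ a ha]
      simp
    · intro σ _ τ _ h
      simpa using h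
    · intro τ hτ
      refine ⟨π * τ, ?_, by simp⟩
      simp only [Finset.mem_filter, Finset.mem_univ, true_and] at hτ ⊢
      intro a ha
      rw [Perm.mul_apply, hτ a ha, hπ a ha]
  rw [h1]
  have h2 := Fintype.card_congr (Equiv.Perm.subtypeEquivSubtypePerm (fun a : α => a ∉ S))
  rw [Fintype.card_perm] at h2
  have h3 : Fintype.card {a // a ∉ S} = Fintype.card α - S.card := by
    simp
  rw [h3] at h2
  rw [h2, Fintype.card_subtype]
  congr 1
  ext σ
  simp

section
variable {n : ℕ}

theorem card_one (a b : Fin n) :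
    (Finset.univ.filter (fun σ : Perm (Fin n) => σ a = b)).card = (n - 1).factorial := by
  have := card_perm_prescribed ({a} : Finset (Fin n)) (fun _ => b) (by simp)
  simpa using this

theorem card_two (a b c d : Fin n) (h1 : a ≠ c) (h2 : b ≠ d) :
    (Finset.univ.filter (fun σ : Perm (Fin n) => σ a = b ∧ σ c = d)).card = (n - 2).factorial := by
  have := card_perm_prescribed ({a, c} : Finset (Fin n)) (fun x => if x = a then b else d) (by
    intro x hx y hy hxy
    simp only [Finset.coe_insert, Finset.coe_singleton, Set.mem_insert_iff,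
      Set.mem_singleton_iff] at hx hy
    rcases hx with rfl | rfl <;> rcases hy with rfl | rfl
    · rfl
    · simp [h1.symm] at hxy; exact absurd hxy h2
    · simp [h1.symm] at hxy; exact absurd hxy.symm h2
    · rfl)
  rw [Finset.card_pair h1] at this
  simpa [h1.symm] using this

theorem card_three (a b c d e f : Fin n) (h1 : a ≠ c) (h2 : b ≠ d) (h3 : a ≠ e) (h4 : b ≠ f)
    (h5 : c ≠ e) (h6 : d ≠ f) :
    (Finset.univ.filter (fun σ : Perm (Fin n) => σ a = b ∧ σ c = d ∧ σ e = f)).card
      = (n - 3).factorial := by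
  have := card_perm_prescribed ({a, c, e} : Finset (Fin n))
    (fun x => if x = a then b else if x = c then d else f) (by
    intro x hx y hy hxy
    simp only [Finset.coe_insert, Finset.coe_singleton, Set.mem_insert_iff,
      Set.mem_singleton_iff] at hx hy
    rcases hx with rfl | rfl | rfl <;> rcases hy with rfl | rfl | rfl <;>
      simp_all [h1.symm, h3.symm, h5.symm])
  rw [Finset.card_eq_three.2 ⟨a, c, e, h1, h3, h5, rfl⟩] at this
  simpa [h1.symm, h3.symm, h5.symm] using this
end

/-- Bonferroni-type lower bound for the part of a union of cosets in a fixed coset. -/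
theorem union_lower {n : ℕ} (hn : 5 ≤ n) (a : Fin n) (Q : Finset (Fin n × Fin n))
    (hQ : ∀ p ∈ Q, p.1 ≠ a ∧ p.2 ≠ a) (hQc : Q.card ≤ n - 2) :
    Q.card * (n - 2).factorial ≤
      2 * (Finset.univ.filter (fun σ : Perm (Fin n) => σ a = a ∧ ∃ p ∈ Q, σ p.1 = p.2)).card := by
  classical
  set U := Finset.univ.filter (fun σ : Perm (Fin n) => σ a = a) with hU
  let N : Perm (Fin n) → ℕ := fun σ => (Q.filter (fun p => σ p.1 = p.2)).card
  have hpt : ∀ σ ∈ U, 3 * N σ ≤ 2 * (if (∃ p ∈ Q, σ p.1 = p.2) then 1 else 0) + N σ * N σ := by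
    intro σ _
    by_cases h : ∃ p ∈ Q, σ p.1 = p.2
    · have : 1 ≤ N σ := by
        obtain ⟨p, hp, hp2⟩ := h
        exact Finset.card_pos.2 ⟨p, by simp [hp, hp2]⟩
      rw [if_pos h]
      rcases Nat.lt_or_ge (N σ) 3 with h3 | h3
      · interval_cases (N σ) <;> simp
      · nlinarith
    · have : N σ = 0 := by
        apply Finset.card_eq_zero.2
        apply Finset.filter_eq_empty_iff.2
        intro p hp hp2
        exact h ⟨p, hp, hp2⟩
      rw [this]; simp
  have hsum := Finset.sum_le_sum hpt
  rw [← Finset.mul_sum, Finset.sum_add_distrib, ← Finset.mul_sum] at hsum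
  have hcardeq : ∑ σ ∈ U, (if (∃ p ∈ Q, σ p.1 = p.2) then 1 else 0)
      = (Finset.univ.filter (fun σ : Perm (Fin n) => σ a = a ∧ ∃ p ∈ Q, σ p.1 = p.2)).card := by
    rw [← Finset.card_filter, hU, Finset.filter_filter]
  rw [hcardeq] at hsum
  have hN : ∑ σ ∈ U, N σ = Q.card * (n - 2).factorial := by
    have : ∑ σ ∈ U, N σ = ∑ σ ∈ U, ∑ p ∈ Q, (if σ p.1 = p.2 then 1 else 0) := by
      refine Finset.sum_congr rfl fun σ _ => ?_
      simp only [N]
      rw [Finset.card_filter]
    rw [this, Finset.sum_comm]
    rw [Finset.sum_congr rfl (g := fun _ => (n - 2).factorial)]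
    · simp
    · intro p hp
      rw [← Finset.card_filter, hU, Finset.filter_filter]
      exact card_two a a p.1 p.2 (hQ p hp).1.symm (hQ p hp).2.symm
  have hN2 : ∑ σ ∈ U, N σ * N σ ≤ 2 * (Q.card * (n - 2).factorial) := by
    have : ∑ σ ∈ U, N σ * N σ = ∑ σ ∈ U, ∑ p ∈ Q, ∑ q ∈ Q,
        (if σ p.1 = p.2 ∧ σ q.1 = q.2 then 1 else 0) := by
      refine Finset.sum_congr rfl fun σ _ => ?_
      simp only [N]
      rw [Finset.card_filter, Finset.sum_mul_sum]
      refine Finset.sum_congr rfl fun p _ => Finset.sum_congr rfl fun q _ => ?_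
      by_cases h1 : σ p.1 = p.2 <;> by_cases h2 : σ q.1 = q.2 <;> simp [h1, h2]
    rw [this, Finset.sum_comm]
    have hp : ∀ p ∈ Q, ∑ σ ∈ U, ∑ q ∈ Q, (if σ p.1 = p.2 ∧ σ q.1 = q.2 then 1 else 0)
        ≤ 2 * (n - 2).factorial := by
      intro p hp
      rw [Finset.sum_comm, ← Finset.add_sum_erase Q _ hp]
      have e1 : ∑ σ ∈ U, (if σ p.1 = p.2 ∧ σ p.1 = p.2 then 1 else 0) = (n - 2).factorial := by
        rw [← Finset.card_filter, hU, Finset.filter_filter]
        simp only [and_self]
        exact card_two a a p.1 p.2 (hQ p hp).1.symm (hQ p hp).2.symm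
      have e2 : ∀ q ∈ Q.erase p, ∑ σ ∈ U, (if σ p.1 = p.2 ∧ σ q.1 = q.2 then 1 else 0)
          ≤ (n - 3).factorial := by
        intro q hq
        rw [← Finset.card_filter, hU, Finset.filter_filter]
        have hqQ := Finset.mem_of_mem_erase hq
        have hqp := Finset.ne_of_mem_erase hq
        by_cases c1 : p.1 = q.1
        · have c2 : p.2 ≠ q.2 := fun c2 => hqp (Prod.ext c1.symm c2.symm)
          rw [Finset.card_eq_zero.2]
          · exact Nat.zero_le _
          · apply Finset.filter_eq_empty_iff.2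
            intro σ _ h
            apply c2
            rw [← h.2.1, ← h.2.2, c1]
        · by_cases c2 : p.2 = q.2
          · rw [Finset.card_eq_zero.2]
            · exact Nat.zero_le _
            · apply Finset.filter_eq_empty_iff.2
              intro σ _ h
              apply c1
              apply σ.injective
              rw [h.2.1, h.2.2, c2]
          · exact le_of_eq (card_three a a p.1 p.2 q.1 q.2 (hQ p hp).1.symm (hQ p hp).2.symm
              (hQ q hqQ).1.symm (hQ q hqQ).2.symm c1 c2)
      have e3 := Finset.sum_le_card_nsmul (Q.erase p) _ _ e2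
      rw [Finset.card_erase_of_mem hp, smul_eq_mul] at e3
      have e4 : (Q.card - 1) * (n - 3).factorial ≤ (n - 2).factorial := by
        have : n - 2 = (n - 3) + 1 := by omega
        rw [this, Nat.factorial_succ]
        apply Nat.mul_le_mul_right
        omega
      rw [e1]
      calc (n - 2).factorial + _ ≤ (n - 2).factorial + (n - 2).factorial :=
            Nat.add_le_add_left (e3.trans e4) _
        _ = 2 * (n - 2).factorial := by ring
    have := Finset.sum_le_card_nsmul Q _ _ hp
    rw [smul_eq_mul] at this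
    calc _ ≤ _ := this
      _ = _ := by ring
  rw [hN] at hsum
  omega

/-- the exceptional set -/
def DD (n : ℕ) (z o : Fin n) : Finset (Perm (Fin n)) :=
  Finset.univ.filter (fun σ => σ z = z ∨ σ o = o ∨ (σ z = o ∧ σ o = z))

theorem card_DD {n : ℕ} (hn : 5 ≤ n) (z o : Fin n) (hzo : z ≠ o) :
    (DD n z o).card = 2 * (n - 1).factorial := by
  classical
  have h1 := card_one z z
  have h2 := card_one o o
  have h3 := card_two z z o o hzo hzo
  have h4 := card_two z o o z hzo hzo.symm
  have e : DD n z o = ((Finset.univ.filter (fun σ : Perm (Fin n) => σ z = z)) ∪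
      (Finset.univ.filter (fun σ : Perm (Fin n) => σ o = o))) ∪
      (Finset.univ.filter (fun σ : Perm (Fin n) => σ z = o ∧ σ o = z)) := by
    ext σ; simp [DD]
  rw [e, Finset.card_union_of_disjoint]
  · have := Finset.card_union_add_card_inter (Finset.univ.filter (fun σ : Perm (Fin n) => σ z = z))
      (Finset.univ.filter (fun σ : Perm (Fin n) => σ o = o))
    rw [← Finset.filter_and] at this
    rw [h3, h1, h2] at this
    rw [h4]
    omega
  · rw [Finset.disjoint_left]
    intro σ hσ hσ2
    simp only [Finset.mem_union, Finset.mem_filter, Finset.mem_univ, true_and] at hσ hσ2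
    rcases hσ with h | h
    · exact hzo (h.symm.trans hσ2.1)
    · exact hzo (hσ2.2.symm.trans h)

theorem edges_le {n : ℕ} (hn : 5 ≤ n) (z o : Fin n) (hz : z.val = 0) (ho : o.val = 1) :
    (((DD n z o)ᶜ ×ˢ (Finset.univ.filter (fun p : Fin n × Fin n => p.1 < p.2))).filter
            (fun x => x.1 * Equiv.swap x.2.1 x.2.2 ∉ (DD n z o)ᶜ)).card
      ≤ 2 * ((n - 2) * n * (n - 2).factorial) := by
  classical
  have hzo : z ≠ o := by
    intro h; rw [h] at hz; omega
  set D1 := Finset.univ.filter (fun σ : Perm (Fin n) => σ z = z ∧ σ o ≠ o) with hD1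
  set D2 := Finset.univ.filter (fun σ : Perm (Fin n) => σ o = o ∧ σ z ≠ z) with hD2
  set E := Finset.univ.filter (fun σ : Perm (Fin n) => σ z = o ∧ σ o = z) with hE
  set Pz := (Finset.univ.erase z).image (fun j : Fin n => (z, j)) with hPz
  set Po := insert (z, o) (((Finset.univ.erase z).erase o).image (fun j : Fin n => (o, j))) with hPo
  set Pzo := (((Finset.univ.erase z).erase o).image (fun j : Fin n => (z, j))) ∪
    (((Finset.univ.erase z).erase o).image (fun j : Fin n => (o, j))) with hPzo
  have hc0 : ((Finset.univ.erase z).erase o).card = n - 2 := by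
    rw [Finset.card_erase_of_mem (by simp [hzo.symm]), Finset.card_erase_of_mem (by simp)]
    simp; omega
  have hcz : Pz.card ≤ n - 1 := by
    refine Finset.card_image_le.trans ?_
    rw [Finset.card_erase_of_mem (by simp)]; simp
  have hco : Po.card ≤ n - 1 := by
    refine (Finset.card_insert_le _ _).trans ?_
    have := (Finset.card_image_le (s := (Finset.univ.erase z).erase o)
      (f := fun j : Fin n => (o, j)))
    omega
  have hczo : Pzo.card ≤ 2 * (n - 2) := by
    refine (Finset.card_union_le _ _).trans ?_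
    have h1 := (Finset.card_image_le (s := (Finset.univ.erase z).erase o)
      (f := fun j : Fin n => (o, j)))
    have h2 := (Finset.card_image_le (s := (Finset.univ.erase z).erase o)
      (f := fun j : Fin n => (z, j)))
    omega
  have hcD1 : D1.card + (n - 2).factorial = (n - 1).factorial := by
    have h1 := card_one z z
    have h3 := card_two z z o o hzo hzo
    rw [← h1, ← h3]
    rw [← Finset.card_filter_add_card_filter_not (s := Finset.univ.filter
      (fun σ : Perm (Fin n) => σ z = z)) (fun σ => σ o = o), Finset.filter_filter,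
      Finset.filter_filter]
    simp only [hD1, ne_eq]
    omega
  have hcD2 : D2.card + (n - 2).factorial = (n - 1).factorial := by
    have h1 := card_one o o
    have h3 := card_two o o z z hzo.symm hzo.symm
    rw [← h1, ← h3]
    rw [← Finset.card_filter_add_card_filter_not (s := Finset.univ.filter
      (fun σ : Perm (Fin n) => σ o = o)) (fun σ => σ z = z), Finset.filter_filter,
      Finset.filter_filter]
    simp only [hD2, ne_eq]
    omega
  have hcE : E.card = (n - 2).factorial := card_two z o o z hzo hzo.symm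
  have key : (((DD n z o)ᶜ ×ˢ (Finset.univ.filter (fun p : Fin n × Fin n => p.1 < p.2))).filter
            (fun x => x.1 * Equiv.swap x.2.1 x.2.2 ∉ (DD n z o)ᶜ)).card
      ≤ ((D1 ×ˢ Pz) ∪ ((D2 ×ˢ Po) ∪ (E ×ˢ Pzo))).card := by
    refine Finset.card_le_card_of_injOn (fun x => (x.1 * Equiv.swap x.2.1 x.2.2, x.2)) ?_ ?_
    · rintro ⟨τ, i, j⟩ hx
      simp only [Finset.coe_filter, Finset.mem_product, Finset.mem_compl, Finset.mem_filter,
        Finset.mem_univ, true_and, not_not, Set.mem_ofPred_eq, DD] at hx
      obtain ⟨⟨hτ, hij⟩, hx⟩ := hx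
      push Not at hτ
      obtain ⟨t1, t2, t3⟩ := hτ
      set σ := τ * Equiv.swap i j with hσ
      have hτσ : τ = σ * Equiv.swap i j := by rw [hσ, mul_assoc]; simp
      have hjz : j ≠ z := by
        intro h; subst h; exact absurd hij (by rw [Fin.lt_def, hz]; omega)
      have hioj : j = o → i = z := by
        intro h; subst h; rw [Fin.lt_def, ho] at hij; apply Fin.ext; omega
      have hτz : τ z = σ (Equiv.swap i j z) := by rw [hτσ]; rfl
      have hτo : τ o = σ (Equiv.swap i j o) := by rw [hτσ]; rfl
      simp only [Finset.coe_union, Set.mem_union, Finset.mem_coe, Finset.mem_product,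
        hD1, hD2, hE, hPz, hPo, hPzo, Finset.mem_filter, Finset.mem_univ, true_and,
        Finset.mem_image, Finset.mem_erase, Finset.mem_insert, Finset.mem_union, Prod.mk.injEq]
      -- case analysis
      by_cases a1 : i = z
      · subst a1
        by_cases a2 : j = o
        · subst a2
          rw [Equiv.swap_apply_left] at hτz
          rw [Equiv.swap_apply_right] at hτo
          rw [hτz] at t1
          rw [hτo] at t2
          rw [hτz, hτo] at t3
          rcases hx with h | h | h
          · left
            refine ⟨⟨h, ?_⟩, j, ⟨hjz, trivial⟩, rfl, rfl⟩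
            intro h'
            exact t3 h' h
          · right; left
            refine ⟨⟨h, ?_⟩, Or.inl ⟨rfl, rfl⟩⟩
            intro h'
            exact t3 h h'
          · exact absurd h.2 t1
        · rw [Equiv.swap_apply_left] at hτz
          rw [Equiv.swap_apply_of_ne_of_ne hzo.symm (Ne.symm a2)] at hτo
          rw [hτo] at t2 t3
          rcases hx with h | h | h
          · left
            exact ⟨⟨h, t2⟩, j, ⟨hjz, trivial⟩, rfl, rfl⟩
          · exact absurd h t2
          · right; right
            exact ⟨h, Or.inl ⟨j, ⟨a2, hjz, trivial⟩, rfl, rfl⟩⟩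
      · have a2 : j ≠ o := fun h => a1 (hioj h)
        rw [Equiv.swap_apply_of_ne_of_ne (Ne.symm a1) (Ne.symm hjz)] at hτz
        rw [hτz] at t1 t3
        by_cases a3 : i = o
        · subst a3
          rcases hx with h | h | h
          · exact absurd h t1
          · right; left
            exact ⟨⟨h, t1⟩, Or.inr ⟨j, ⟨a2, hjz, trivial⟩, rfl, rfl⟩⟩
          · right; right
            exact ⟨h, Or.inr ⟨j, ⟨a2, hjz, trivial⟩, rfl, rfl⟩⟩
        · rw [Equiv.swap_apply_of_ne_of_ne (Ne.symm a3) (Ne.symm a2)] at hτo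
          rw [hτo] at t2 t3
          rcases hx with h | h | h
          · exact absurd h t1
          · exact absurd h t2
          · exact absurd h.2 (t3 h.1)
    · rintro ⟨τ, p⟩ _ ⟨τ', p'⟩ _ h
      simp only [Prod.mk.injEq] at h
      obtain ⟨h1, h2⟩ := h
      subst h2
      simpa using h1
  refine key.trans ((Finset.card_union_le _ _).trans ?_)
  refine (Nat.add_le_add_left (Finset.card_union_le _ _) _).trans ?_
  rw [Finset.card_product, Finset.card_product, Finset.card_product, hcE]
  obtain ⟨k, rfl⟩ : ∃ k, n = k + 2 := ⟨n - 2, by omega⟩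
  have hf : (k + 2 - 1).factorial = (k + 1) * k.factorial := by
    rw [show k + 2 - 1 = k + 1 by omega, Nat.factorial_succ]
  rw [hf, show k + 2 - 2 = k by omega] at hcD1 hcD2
  rw [show k + 2 - 1 = k + 1 by omega] at hcz hco
  rw [show k + 2 - 2 = k by omega] at hczo ⊢
  have hd1 : D1.card = k * k.factorial := by nlinarith
  have hd2 : D2.card = k * k.factorial := by nlinarith
  rw [hd1, hd2]
  have b1 := Nat.mul_le_mul_left (k * k.factorial) hcz
  have b2 := Nat.mul_le_mul_left (k * k.factorial) hco
  have b3 := Nat.mul_le_mul_left (k.factorial) hczo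
  nlinarith

theorem main_neg :
    ¬ (∃ C₁ : ℝ, 0 < C₁ ∧
      ∀ (n : ℕ), 1 ≤ n →
      ∀ (c : ℕ) (δ : ℝ), 0 ≤ δ →
      ∀ A : Finset (Equiv.Perm (Fin n)),
        A.card = c * Nat.factorial (n - 1) →
        ((((A ×ˢ (Finset.univ.filter (fun p : Fin n × Fin n => p.1 < p.2))).filter
            (fun x => x.1 * Equiv.swap x.2.1 x.2.2 ∉ A)).card : ℕ) : ℝ)
          ≤ (A.card : ℝ) * ((Nat.factorial n : ℝ) - (A.card : ℝ)) / (Nat.factorial (n - 1) : ℝ)
            + δ * (n : ℝ) * (A.card : ℝ) →
        ∃ P : Finset (Fin n × Fin n), P.card = c ∧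
          ((symmDiff A (Finset.univ.filter (fun σ : Equiv.Perm (Fin n) => ∃ p ∈ P, σ p.1 = p.2))).card : ℝ)
            ≤ C₁ * (c : ℝ) * δ * (Nat.factorial (n - 1) : ℝ)) := by
  classical
  rintro ⟨C, hC, H⟩
  obtain ⟨k, hk⟩ := exists_nat_gt (8 * C + 4)
  -- n = k + 5
  set n := k + 5 with hn
  have hn5 : 5 ≤ n := by omega
  let z : Fin n := ⟨0, by omega⟩
  let o : Fin n := ⟨1, by omega⟩
  have hzo : z ≠ o := by simp [z, o]
  have hf1 : (n.factorial : ℝ) = n * ((n - 1) * ((n - 2).factorial : ℝ)) := by
    rw [hn, show k + 5 - 2 = k + 3 by omega]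
    rw [show (k + 5).factorial = (k + 5) * ((k + 4) * (k + 3).factorial) by
      rw [Nat.factorial_succ, Nat.factorial_succ]]
    push_cast; ring
  have hf2 : ((n - 1).factorial : ℝ) = (n - 1) * ((n - 2).factorial : ℝ) := by
    rw [hn, show k + 5 - 2 = k + 3 by omega, show k + 5 - 1 = k + 4 by omega]
    rw [show (k + 4).factorial = ((k + 4) * (k + 3).factorial) by
      rw [Nat.factorial_succ]]
    push_cast; ring
  have hF : (0 : ℝ) < ((n - 2).factorial : ℝ) := by positivity
  have hnR : (5 : ℝ) ≤ n := by exact_mod_cast hn5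
  set F : ℝ := ((n - 2).factorial : ℝ) with hFdef
  have hcD := card_DD hn5 z o hzo
  have hAcard : ((DD n z o)ᶜ).card = (n - 2) * (n - 1).factorial := by
    rw [Finset.card_compl, hcD, Fintype.card_perm, Fintype.card_fin]
    obtain ⟨m, hm⟩ : ∃ m, n = m + 2 := ⟨n - 2, by omega⟩
    rw [hm, show m + 2 - 1 = m + 1 by omega, show m + 2 - 2 = m by omega,
      Nat.factorial_succ (m + 1)]
    have : (m + 1 + 1) * (m + 1).factorial = m * (m + 1).factorial + 2 * (m + 1).factorial := by
      ring
    omega
  have hAcardR : (((DD n z o)ᶜ).card : ℝ) = (n - 2) * ((n - 1) * F) := by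
    rw [hAcard]
    push_cast [show 2 ≤ n by omega]
    rw [hf2]
  have hδ : (0 : ℝ) ≤ 2 / (n * (n - 1)) := by
    apply div_nonneg (by norm_num)
    nlinarith
  obtain ⟨P, hPc, hP⟩ := H n (by omega) (n - 2) (2 / (n * (n - 1))) hδ ((DD n z o)ᶜ) hAcard (by
    have h1 := edges_le hn5 z o rfl rfl
    have h2 : ((((DD n z o)ᶜ ×ˢ (Finset.univ.filter (fun p : Fin n × Fin n => p.1 < p.2))).filter
            (fun x => x.1 * Equiv.swap x.2.1 x.2.2 ∉ (DD n z o)ᶜ)).card : ℝ)
        ≤ 2 * ((n - 2) * n * F) := by
      have := (Nat.cast_le (α := ℝ)).2 h1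
      push_cast [show 2 ≤ n by omega] at this
      exact this
    refine h2.trans (le_of_eq ?_)
    rw [hAcardR, hf1, hf2]
    have : (n : ℝ) - 1 ≠ 0 := by linarith
    field_simp
    ring)
  -- lower bound
  set B := Finset.univ.filter (fun σ : Equiv.Perm (Fin n) => ∃ p ∈ P, σ p.1 = p.2) with hB
  have hsub : ∀ a : Fin n, (a = z ∨ a = o) →
      (P.filter (fun p => p.1 ≠ a ∧ p.2 ≠ a)).card * (n - 2).factorial
        ≤ 2 * (symmDiff ((DD n z o)ᶜ) B).card := by
    intro a ha
    refine (union_lower hn5 a (P.filter (fun p => p.1 ≠ a ∧ p.2 ≠ a)) ?_ ?_).trans ?_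
    · intro p hp; exact (Finset.mem_filter.1 hp).2
    · exact (Finset.card_filter_le _ _).trans hPc.le
    · apply Nat.mul_le_mul_left
      apply Finset.card_le_card
      intro σ hσ
      simp only [Finset.mem_filter, Finset.mem_univ, true_and] at hσ
      obtain ⟨h1, p, hp, hp2⟩ := hσ
      rw [Finset.mem_symmDiff]
      right
      constructor
      · rw [hB]
        simp only [Finset.mem_filter, Finset.mem_univ, true_and]
        exact ⟨p, hp.1, hp2⟩
      · rw [Finset.mem_compl, not_not]
        simp only [DD, Finset.mem_filter, Finset.mem_univ, true_and]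
        rcases ha with rfl | rfl
        · left; exact h1
        · right; left; exact h1
  have hcov : P.card ≤ (P.filter (fun p => p.1 ≠ z ∧ p.2 ≠ z)).card
      + (P.filter (fun p => p.1 ≠ o ∧ p.2 ≠ o)).card + 2 := by
    have : P ⊆ (P.filter (fun p => p.1 ≠ z ∧ p.2 ≠ z)) ∪ (P.filter (fun p => p.1 ≠ o ∧ p.2 ≠ o))
        ∪ {(z, o), (o, z)} := by
      intro p hp
      simp only [Finset.mem_union, Finset.mem_filter, hp, true_and, Finset.mem_insert,
        Finset.mem_singleton]
      by_contra hcon
      push Not at hcon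
      obtain ⟨⟨h1, h2⟩, h3, h4⟩ := hcon
      by_cases e1 : p.1 = z
      · by_cases e2 : p.2 = o
        · exact h3 (Prod.ext e1 e2)
        · exact e2 (h2 (by rw [e1]; exact hzo))
      · have e3 := h1 e1
        by_cases e4 : p.1 = o
        · exact h4 (Prod.ext e4 e3)
        · have e5 := h2 e4
          exact hzo (e3.symm.trans e5)
    refine (Finset.card_le_card this).trans ((Finset.card_union_le _ _).trans ?_)
    refine Nat.add_le_add (Finset.card_union_le _ _) (Finset.card_le_two)
  have hz := hsub z (Or.inl rfl)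
  have ho := hsub o (Or.inr rfl)
  have htot : (n - 4) * (n - 2).factorial ≤ 4 * (symmDiff ((DD n z o)ᶜ) B).card := by
    have h1 : n - 4 ≤ (P.filter (fun p => p.1 ≠ z ∧ p.2 ≠ z)).card
      + (P.filter (fun p => p.1 ≠ o ∧ p.2 ≠ o)).card := by omega
    have h2 := Nat.mul_le_mul_right ((n - 2).factorial) h1
    rw [add_mul] at h2
    omega
  have htotR : ((n : ℝ) - 4) * F ≤ 4 * ((symmDiff ((DD n z o)ᶜ) B).card : ℝ) := by
    have := (Nat.cast_le (α := ℝ)).2 htot
    push_cast [show 4 ≤ n by omega] at this
    exact this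
  have hup : C * ((n - 2 : ℕ) : ℝ) * (2 / (n * (n - 1))) * ((n - 1).factorial : ℝ) ≤ 2 * C * F := by
    rw [hf2]
    push_cast [show 2 ≤ n by omega]
    have hn1 : (0 : ℝ) < n - 1 := by linarith
    have hn0 : (0 : ℝ) < n := by linarith
    rw [show C * ((n : ℝ) - 2) * (2 / (n * (n - 1))) * ((n - 1) * F)
      = (2 * C * F) * ((n - 2) / n) by field_simp]
    have : ((n : ℝ) - 2) / n ≤ 1 := by
      rw [div_le_one hn0]; linarith
    have h2 : 0 ≤ 2 * C * F := by positivity
    nlinarith
  have h3 : ((n : ℝ) - 4) * F ≤ 8 * C * F := by linarith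
  have h4 : (n : ℝ) - 4 ≤ 8 * C := le_of_mul_le_mul_right h3 hF
  have h5 : (n : ℝ) = k + 5 := by rw [hn]; push_cast; ring
  linarith

end Pool.Agent.X152.CosetStab
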