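import Mathlib

/-! Orthogonal diagonalisation of a real symmetric matrix in a convenient form. -/

namespace Pool.Agent.X152.Spec

open Matrix

variable {n : Type*} [Fintype n] [DecidableEq n]

theorem diagonalise {A : Matrix n n ℝ} (hA : A.IsHermitian) :
    ∃ U : Matrix n n ℝ, U * Uᵀ = 1 ∧ Uᵀ * U = 1 ∧ A = U * diagonal hA.eigenvalues * Uᵀ := by
  refine ⟨(hA.eigenvectorUnitary : Matrix n n ℝ), ?_, ?_, ?_⟩
  · have := Unitary.mul_star_self_of_mem hA.eigenvectorUnitary.2
    rwa [star_eq_conjTranspose, conjTranspose_eq_transpose_of_trivial] at this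
  · have := Unitary.star_mul_self_of_mem hA.eigenvectorUnitary.2
    rwa [star_eq_conjTranspose, conjTranspose_eq_transpose_of_trivial] at this
  · conv_lhs => rw [hA.spectral_theorem]
    rw [Unitary.conjStarAlgAut_apply, star_eq_conjTranspose, conjTranspose_eq_transpose_of_trivial]
    rfl

/-- Rows of a conjugated diagonal contraction have length at most one. -/
theorem row_sq_le {V : Matrix n n ℝ} (h1 : V * Vᵀ = 1) (h2 : Vᵀ * V = 1) {s : n → ℝ}
    (hs : ∀ k, |s k| ≤ 1) (i : n) : ∑ l, (V * diagonal s * Vᵀ) i l ^ 2 ≤ 1 := by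
  have e : ∑ l, (V * diagonal s * Vᵀ) i l ^ 2 = ((V * diagonal s * Vᵀ) * (V * diagonal s * Vᵀ)ᵀ) i i := by
    rw [Matrix.mul_apply]
    exact Finset.sum_congr rfl fun l _ => by rw [transpose_apply, sq]
  have e2 : (V * diagonal s * Vᵀ) * (V * diagonal s * Vᵀ)ᵀ = V * diagonal (fun k => s k * s k) * Vᵀ := by
    rw [transpose_mul, transpose_mul, transpose_transpose, diagonal_transpose]
    calc V * diagonal s * Vᵀ * (V * (diagonal s * Vᵀ))
        = V * diagonal s * (Vᵀ * V) * (diagonal s * Vᵀ) := by simp only [Matrix.mul_assoc]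
      _ = V * (diagonal s * diagonal s) * Vᵀ := by rw [h2]; simp only [Matrix.mul_assoc, Matrix.one_mul]
      _ = _ := by rw [diagonal_mul_diagonal]
  rw [e, e2, Matrix.mul_apply]
  have e3 : ∑ k, V i k * V i k = 1 := by
    have := congrFun (congrFun h1 i) i
    rw [Matrix.mul_apply] at this
    simpa using this
  rw [← e3]
  refine Finset.sum_le_sum fun k _ => ?_
  rw [mul_diagonal, transpose_apply]
  have : s k * s k ≤ 1 := by
    have := hs k
    rw [← abs_mul_abs_self]
    nlinarith [abs_nonneg (s k)]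
  nlinarith [mul_self_nonneg (V i k)]

end Pool.Agent.X152.Spec
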